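import Mathlib
import Pool.Agent.Lib_helper99.TFP.F3
import Pool.Agent.Lib_helper99.TFP.F5
import Pool.Agent.Lib_helper99.TFP.P

/-!
# MP_ef3e41_nt: an effective exponent `999 / 1000` outside the middle range of the prime `3`

For all `m ≥ 12 * 10 ^ 6` and `0 < n < m` the `{3, 5}`-part of `N = 2 ^ m + 2 ^ n + 1` is at most
`2 ^ (999 m / 1000)` if `3` does not divide `N`, or `n ≤ m / 4`, or `n ≥ 2 m / 3`.
-/

set_option autoImplicit false

theorem Pool.Agent.Results.MP_ef3e41_nt.AllButTheMiddle.result (m n : ℕ) (hm : 12 * 10 ^ 6 ≤ m)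
    (hn : 0 < n) (hnm : n < m)
    (h : ¬ 3 ∣ 2 ^ m + 2 ^ n + 1 ∨ 4 * n ≤ m ∨ 2 * m ≤ 3 * n) :
    ((3 ^ padicValNat 3 (2 ^ m + 2 ^ n + 1) * 5 ^ padicValNat 5 (2 ^ m + 2 ^ n + 1) : ℕ) : ℝ) ≤
      (2 : ℝ) ^ (999 * (m : ℝ) / 1000) := by
  have key : (3 ^ padicValNat 3 (2 ^ m + 2 ^ n + 1) * 5 ^ padicValNat 5 (2 ^ m + 2 ^ n + 1)) ^ 1000
      ≤ 2 ^ (999 * m) := by
    rcases Pool.Agent.TFP.spart m n with e | ⟨h3, e⟩
    · rw [e]
      by_cases h3 : 3 ∣ 2 ^ m + 2 ^ n + 1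
      · refine Pool.Agent.TFP.p3_999 m n _ hm hnm ?_ pow_padicValNat_dvd
        rcases h with h | h | h
        · exact absurd h3 h
        · exact Or.inl h
        · exact Or.inr h
      · rw [padicValNat.eq_zero_of_not_dvd h3]
        simpa using Nat.one_le_two_pow
    · rw [e]
      exact Pool.Agent.TFP.p5_999 m n _ hm hnm pow_padicValNat_dvd
  have := Pool.Agent.TFP.to_real _ 1000 999 m (by norm_num) key
  exact_mod_cast this
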