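import Mathlib
import Pool.Agent.Lib_helper99.TFP.F3
import Pool.Agent.Lib_helper99.TFP.F5
import Pool.Agent.Lib_helper99.TFP.P

/-!
# MP_ef3e41_nt: the inequality of Q1 at the ends of the range, with an explicit bound

For all `m ≥ 10 ^ 7` and `0 < n < m` the `{3, 5}`-part of `N = 2 ^ m + 2 ^ n + 1` is at most
`2 ^ (3 m / 4)` if `n ≤ m / 16`, or `n ≥ 12 m / 13`, or `3` does not divide `N` and
(`n ≤ m / 5` or `n ≥ 5 m / 6`).
-/

set_option autoImplicit false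

theorem Pool.Agent.Results.MP_ef3e41_nt.EndsOfTheRange.result (m n : ℕ) (hm : 10 ^ 7 ≤ m)
    (hn : 0 < n) (hnm : n < m)
    (h : 16 * n ≤ m ∨ 12 * m ≤ 13 * n ∨
      (¬ 3 ∣ 2 ^ m + 2 ^ n + 1 ∧ (5 * n ≤ m ∨ 5 * m ≤ 6 * n))) :
    ((3 ^ padicValNat 3 (2 ^ m + 2 ^ n + 1) * 5 ^ padicValNat 5 (2 ^ m + 2 ^ n + 1) : ℕ) : ℝ) ≤
      (2 : ℝ) ^ (3 * (m : ℝ) / 4) := by
  have key : (3 ^ padicValNat 3 (2 ^ m + 2 ^ n + 1) * 5 ^ padicValNat 5 (2 ^ m + 2 ^ n + 1)) ^ 4 ≤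
      2 ^ (3 * m) := by
    rcases Pool.Agent.TFP.spart m n with e | ⟨h3, e⟩
    · rw [e]
      by_cases h3 : 3 ∣ 2 ^ m + 2 ^ n + 1
      · refine Pool.Agent.TFP.p3_34 m n _ hm hnm ?_ pow_padicValNat_dvd
        rcases h with h | h | h
        · exact Or.inl h
        · exact Or.inr h
        · exact absurd h3 h.1
      · rw [padicValNat.eq_zero_of_not_dvd h3]
        simpa using Nat.one_le_two_pow
    · rw [e]
      refine Pool.Agent.TFP.p5_34 m n _ hm hnm ?_ pow_padicValNat_dvd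
      rcases h with h | h | h
      · exact Or.inl (by omega)
      · exact Or.inr (by omega)
      · exact h.2
  have := Pool.Agent.TFP.to_real _ 4 3 m (by norm_num) key
  exact_mod_cast this
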